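import Mathlib
import Pool.Agent.P.MP_323ce2_nt.Limit

namespace Pool.Agent.Results.MP_323ce2_nt.ExactLimit

/-- Unconditional asymptotic.  The sum runs over the zeros of zeta in the critical strip and is
taken in the extended nonnegative reals: a zero on the critical line contributes
1/|rho zeta'(rho)|^2 (infinity if the zero is multiple), a zero off the line contributes infinity. -/
theorem result :
    Filter.Tendsto (fun x : ℝ => ENNReal.ofReal
        ((∫ u in (1 : ℝ)..x,
          ((∑ n ∈ Finset.Icc 1 ⌊u⌋₊, ((ArithmeticFunction.moebius n : ℤ) : ℝ)) / u) ^ 2)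
            / Real.log x)) Filter.atTop
      (nhds (∑' ρ : {ρ : ℂ // riemannZeta ρ = 0 ∧ 0 < ρ.re ∧ ρ.re < 1},
        (if (ρ : ℂ).re = 1 / 2 then (ENNReal.ofReal (‖(ρ : ℂ) * deriv riemannZeta ρ‖ ^ 2))⁻¹
          else ⊤))) :=
  Pool.Agent.P.MP_323ce2_nt.limit

end Pool.Agent.Results.MP_323ce2_nt.ExactLimit
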