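import Mathlib
import Pool.Agent.P.MP_323ce2_nt.QX.All

namespace Pool.Agent.Results.MP_323ce2_nt.MertensPower

/-- An unconditional power saving for the Mertens function, with exponent 0.8742. -/
theorem result : ∃ C : ℝ, ∀ x : ℝ, 1 ≤ x →
    |∑ n ∈ Finset.Icc 1 ⌊x⌋₊, ((ArithmeticFunction.moebius n : ℤ) : ℝ)| ≤
      C * x ^ (4371 / 5000 : ℝ) :=
  Pool.Agent.P.MP_323ce2_nt.QX.mertens

end Pool.Agent.Results.MP_323ce2_nt.MertensPower
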