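import Mathlib
import Pool.Agent.P.MP_323ce2_nt.NB.All

namespace Pool.Agent.Results.MP_323ce2_nt.NymanBeurling

/-- Unconditional asymptotic of the Nyman-Beurling-Baez-Duarte distance.  The infimum is over all
Dirichlet polynomials of length `N`.  The sum runs over the distinct zeros of zeta in the critical
strip and is taken in the extended nonnegative reals: a zero of order `m` on the critical line
contributes m^2/|rho|^2, a zero off the line contributes infinity. -/
theorem result :
    Filter.Tendsto (fun N : ℕ => ENNReal.ofReal (Real.log N) *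
        ⨅ a : ℕ → ℂ, ∫⁻ t : ℝ, ENNReal.ofReal
          (‖1 - riemannZeta (1 / 2 + t * Complex.I) *
              ∑ n ∈ Finset.Icc 1 N, a n * (n : ℂ) ^ (-(1 / 2 + t * Complex.I))‖ ^ 2
            / (2 * Real.pi * (1 / 4 + t ^ 2)))) Filter.atTop
      (nhds (∑' ρ : {ρ : ℂ // riemannZeta ρ = 0 ∧ 0 < ρ.re ∧ ρ.re < 1},
        (if (ρ : ℂ).re = 1 / 2 then
          ENNReal.ofReal ((analyticOrderNatAt riemannZeta (ρ : ℂ) : ℝ) ^ 2 / ‖(ρ : ℂ)‖ ^ 2)
          else ⊤))) :=
  Pool.Agent.P.MP_323ce2_nt.NB.main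

end Pool.Agent.Results.MP_323ce2_nt.NymanBeurling
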